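import Pool.Agent.Helper50_PN.Stmts

/-! Squad PN, module CLO: the vector fields map the classes into the classes. -/

set_option autoImplicit false

universe u

namespace Pool.Agent.PN.H71

theorem clo (hd : CldStmt) (hn : ClnStmt.{u}) (hm : ClmStmt.{u}) : CloStmt.{u} := by
  intro n N k m' d m P hP
  obtain ⟨h1, h2⟩ := hd n N k d m P hP.deg hP.wt
  refine ⟨fun l r hr => ⟨(h1 l r hr).1, (h1 l r hr).2, hn n N k m' P hP.nod l r⟩,
    fun l j => ⟨(h2 l j).1, (h2 l j).2, hm n N k m' P hP.nod l j⟩⟩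

end Pool.Agent.PN.H71
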